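import Pool.Agent.Work.MP_50f8f6_al.Interface

/-!
# Block S2: windmills
-/

set_option linter.unusedSectionVars false

namespace FrobP
open GMet

namespace S2

variable {G V ι : Type} [Group G] [GMet V] [MulAction G V] [MulAction G ι] [IsomAct G V]
variable {C : ConeData V ι} [ConeAct G C] {H : ι → Subgroup G} {θ T : ℕ}

/-- windmills -/
structure Wind (C : ConeData V ι) (H : ι → Subgroup G) (θ T : ℕ) (W : Set V) (M : Subgroup G)
    (S : Set ι) : Prop where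
  ne : W.Nonempty
  mW : ∀ m ∈ M, ∀ w ∈ W, m • w ∈ W
  mS : ∀ m ∈ M, ∀ i ∈ S, m • i ∈ S
  qc : QC (8 * θ) W
  hM : ∀ i ∈ S, H i ≤ M
  pr : ∀ i, i ∉ S → ∀ w ∈ W, ∀ w' ∈ W, prd (C.Y i) w w' ≤ 600 * θ
  red : ∀ m ∈ M, ∀ x : V, Red C.Y H S (T / 4) x m

theorem Rot.mem_iff (hR : Rot G C H θ T) (g h : G) (i : ι) :
    h ∈ H (g • i) ↔ g⁻¹ * h * g ∈ H i := by
  constructor
  · intro hh
    have := hR.conj g⁻¹ (g • i) h hh
    rwa [inv_smul_smul, inv_inv] at this
  · intro hh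
    have := hR.conj g i _ hh
    have e : g * (g⁻¹ * h * g) * g⁻¹ = h := by group
    rwa [e] at this

theorem big_prd (hR : Rot G C H θ T) {Z : ι} {k : G} (hk : k ∈ H Z) (hk1 : k ≠ 1) (x : V) :
    T ≤ prd (C.Y Z) x (k • x) := by
  obtain ⟨a, ha⟩ := exists_pr (C.hY Z) x
  have h1 := ha.smulC (C := C) k Z
  rw [hR.fix Z k hk] at h1
  have h2 := le_prd ha h1
  exact (hR.big Z k hk hk1 a).trans h2

/-- centers near the windmill -/
def OO (C : ConeData V ι) (θ : ℕ) (W : Set V) (S : Set ι) : Set ι :=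
  {i | i ∉ S ∧ ∃ y ∈ C.Y i, ∃ w ∈ W, d y w ≤ 26 * θ}

/-- the new group -/
def MM (H : ι → Subgroup G) (M : Subgroup G) (O : Set ι) : Subgroup G :=
  Subgroup.closure ((M : Set G) ∪ ⋃ i ∈ O, (H i : Set G))

theorem M_le_MM (M : Subgroup G) (O : Set ι) : M ≤ MM H M O := fun _ hm =>
  Subgroup.subset_closure (Or.inl hm)

theorem H_le_MM (M : Subgroup G) {O : Set ι} {i : ι} (hi : i ∈ O) : H i ≤ MM H M O := fun _ hm =>
  Subgroup.subset_closure (Or.inr (Set.mem_biUnion hi hm))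

section step

variable {W : Set V} {M : Subgroup G} {S : Set ι}

theorem OO_inv (hW : Wind C H θ T W M S) {m : G} (hm : m ∈ M) {i : ι} (hi : i ∈ OO C θ W S) :
    m • i ∈ OO C θ W S := by
  obtain ⟨h1, y, hy, w, hw, hd⟩ := hi
  refine ⟨?_, m • y, ConeAct.mem m i y hy, m • w, hW.mW m hm w hw, ?_⟩
  · intro h2
    have := hW.mS m⁻¹ (M.inv_mem hm) _ h2
    rw [inv_smul_smul] at this
    exact h1 this
  · rw [IsomAct.isom]; exact hd

/-- `H Z` is contained in the new group if `Z` is adjacent to `g`. -/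
theorem H_le (hR : Rot G C H θ T) {O : Set ι} {g : G} (hg : g ∈ MM H M O) {Z : ι}
    (hZ : g⁻¹ • Z ∈ O) : H Z ≤ MM H M O := by
  intro k hk
  have h1 : g⁻¹ * k * g ∈ H (g⁻¹ • Z) := by
    have := hR.conj g⁻¹ Z k hk
    rwa [inv_inv] at this
  have h2 := H_le_MM (H := H) M hZ h1
  have h3 : k = g * (g⁻¹ * k * g) * g⁻¹ := by group
  rw [h3]
  exact mul_mem (mul_mem hg h2) (inv_mem hg)

/-- copy version of `pr` -/
theorem pr_copy (hW : Wind C H θ T W M S) {g : G} {Z : ι} (hZ : g⁻¹ • Z ∉ S) {w w' : V}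
    (hw : g⁻¹ • w ∈ W) (hw' : g⁻¹ • w' ∈ W) : prd (C.Y Z) w w' ≤ 600 * θ := by
  rw [← prd_smulC C g⁻¹ Z w w']
  exact hW.pr _ hZ _ hw _ hw'

/-- (f1) -/
theorem f1 (hR : Rot G C H θ T) (hW : Wind C H θ T W M S) {g : G} {Z Z' : ι} (hne : Z ≠ Z')
    (hZ : g⁻¹ • Z ∈ OO C θ W S) (hZ' : g⁻¹ • Z' ∈ OO C θ W S) {y w : V} (hy : y ∈ C.Y Z')
    (hw : g⁻¹ • w ∈ W) : prd (C.Y Z) y w ≤ 643 * θ := by
  obtain ⟨h1, y0, hy0, w0, hw0, hd⟩ := hZ'
  have hy1 : g • y0 ∈ C.Y Z' := by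
    have := ConeAct.mem (C := C) g _ _ hy0
    rwa [smul_inv_smul] at this
  have e1 := hR.fam.small Z Z' hne y hy (g • y0) hy1
  have e2 := hR.fam.prd_lip Z (g • y0) (g • w0)
  rw [IsomAct.isom] at e2
  have e3 : prd (C.Y Z) (g • w0) w ≤ 600 * θ :=
    pr_copy hW hZ.1 (by rwa [inv_smul_smul]) hw
  have t1 := hR.fam.prd_tri Z y (g • y0) w
  have t2 := hR.fam.prd_tri Z (g • y0) (g • w0) w
  omega

/-- `b` is nearest to the copy `g'W` -/
def Near (W : Set V) (M' : Subgroup G) (b : V) (g' : G) : Prop :=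
  ∃ w1, g'⁻¹ • w1 ∈ W ∧ ∀ g ∈ M', ∀ w, g⁻¹ • w ∈ W → d b w1 ≤ d b w

theorem exists_near (hne : W.Nonempty) (M' : Subgroup G) (b : V) :
    ∃ g ∈ M', Near W M' b g := by
  classical
  obtain ⟨w0, hw0⟩ := hne
  have hne' : {n | ∃ g ∈ M', ∃ w, g⁻¹ • w ∈ W ∧ d b w = n}.Nonempty :=
    ⟨_, 1, one_mem _, w0, by simpa using hw0, rfl⟩
  obtain ⟨g, hg, w, hw, hd⟩ := Nat.sInf_mem hne'
  refine ⟨g, hg, w, hw, fun g' hg' w' hw' => ?_⟩
  rw [hd]
  exact Nat.sInf_le ⟨g', hg', w', hw', rfl⟩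

theorem Near.smul {M' : Subgroup G} {b : V} {g' n : G} (h : Near W M' b g') (hn : n ∈ M') :
    Near W M' (n • b) (n * g') := by
  obtain ⟨w1, h1, h2⟩ := h
  refine ⟨n • w1, ?_, ?_⟩
  · rwa [mul_inv_rev, mul_smul, inv_smul_smul]
  · intro g hg w hw
    rw [IsomAct.isom]
    have h3 := h2 (n⁻¹ * g) (mul_mem (inv_mem hn) hg) (n⁻¹ • w) (by
      rw [mul_inv_rev, inv_inv, mul_smul, smul_inv_smul]; exact hw)
    have e := IsomAct.isom n b (n⁻¹ • w)
    rw [smul_inv_smul] at e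
    omega

theorem Near.congr (hW : Wind C H θ T W M S) {M' : Subgroup G} {b : V} {g g' : G}
    (h : Near W M' b g) (hg : g⁻¹ * g' ∈ M) : Near W M' b g' := by
  obtain ⟨w1, h1, h2⟩ := h
  refine ⟨w1, ?_, h2⟩
  have h3 := hW.mW _ (M.inv_mem hg) _ h1
  have e : (g⁻¹ * g')⁻¹ • g⁻¹ • w1 = g'⁻¹ • w1 := by
    rw [← mul_smul]; congr 1; group
  rwa [e] at h3

/-- (f3) -/
theorem f3 (hR : Rot G C H θ T) (hW : Wind C H θ T W M S) {g' : G}
    (hg' : g' ∈ MM H M (OO C θ W S)) {b : V} (hb : Near W (MM H M (OO C θ W S)) b g') {Z : ι}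
    (hZ : g'⁻¹ • Z ∈ OO C θ W S) {k : G} (hk : k ∈ H Z) (hk1 : k ≠ 1) {w : V}
    (hw : g'⁻¹ • w ∈ W) : T ≤ 2 * (prd (C.Y Z) b (k • w) + 600 * θ) + 16 * θ := by
  obtain ⟨w1, h1, h2⟩ := hb
  have hkM := H_le (M := M) hR hg' hZ hk
  have e1 : d b w1 ≤ d b (k • w1) := h2 (k * g') (mul_mem hkM hg') _ (by
    rw [mul_inv_rev, mul_smul, inv_smul_smul]; exact h1)
  obtain ⟨β, hβ⟩ := exists_pr (C.hY Z) b
  obtain ⟨ω, hω⟩ := exists_pr (C.hY Z) w1
  have hkω : Pr (C.Y Z) (k • w1) (k • ω) := by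
    have := hω.smulC (C := C) k Z
    rwa [hR.fix Z k hk] at this
  have e2 : T ≤ d ω (k • ω) := hR.big Z k hk hk1 ω
  have e3 : d β (k • ω) ≤ prd (C.Y Z) b (k • w1) := le_prd hβ hkω
  have e4 : prd (C.Y Z) (k • w1) (k • w) ≤ 600 * θ := by
    have := prd_smulC C k Z w1 w
    rw [hR.fix Z k hk] at this
    rw [this]
    exact pr_copy hW hZ.1 h1 hw
  have t1 := hR.fam.prd_tri Z b (k • w) (k • w1)
  rw [prd_symm (k • w) (k • w1)] at t1
  have t2 := tri ω β (k • ω)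
  have s1 := GMet.symm ω β
  have t3 := tri b β (k • w1)
  have t4 := tri β (k • ω) (k • w1)
  have s2 := GMet.symm (k • ω) (k • w1)
  have s3 := IsomAct.isom k w1 ω
  by_cases hbig : 8 * θ < d β ω
  · have e5 := hβ.p3 hR.fam.hyp hR.fam.one_le (hR.fam.qc Z) hω hbig
    have s4 := GMet.symm ω w1
    omega
  · omega

/-- chains of copies -/
def Ch (H : ι → Subgroup G) (M : Subgroup G) (O : Set ι) : ℕ → G → G → Prop
  | 0, g, g' => g⁻¹ * g' ∈ M
  | L + 1, g, g' => ∃ (Z : ι) (k : G), g⁻¹ • Z ∈ O ∧ k ∈ H Z ∧ k ≠ 1 ∧ Ch H M O L (k * g) g'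

/-- chains are left invariant -/
theorem Ch.left (hR : Rot G C H θ T) {O : Set ι} (a : G) : ∀ (L : ℕ) (g g' : G),
    Ch H M O L g g' → Ch H M O L (a * g) (a * g') := by
  intro L
  induction L with
  | zero =>
    intro g g' h
    change (a * g)⁻¹ * (a * g') ∈ M
    have : (a * g)⁻¹ * (a * g') = g⁻¹ * g' := by group
    rw [this]; exact h
  | succ L ih =>
    rintro g g' ⟨Z, k, hZ, hk, hk1, h⟩
    refine ⟨a • Z, a * k * a⁻¹, ?_, hR.conj a Z k hk, ?_, ?_⟩
    · rw [mul_inv_rev, mul_smul, inv_smul_smul]; exact hZ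
    · intro h0
      apply hk1
      have : k = a⁻¹ * (a * k * a⁻¹) * a := by group
      rw [this, h0]; group
    · have := ih _ _ h
      have e : a * k * a⁻¹ * (a * g) = a * (k * g) := by group
      rw [e]; exact this

/-- chains depend only on the coset `gM` -/
theorem Ch.right_M (hinv : ∀ m ∈ M, ∀ i ∈ OO C θ W S, m • i ∈ OO C θ W S) {m : G} (hm : m ∈ M) :
    ∀ (L : ℕ) (g g' : G), Ch H M (OO C θ W S) L (g * m) g' → Ch H M (OO C θ W S) L g g' := by
  intro L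
  induction L with
  | zero =>
    intro g g' h
    change g⁻¹ * g' ∈ M
    have h' : (g * m)⁻¹ * g' ∈ M := h
    have : g⁻¹ * g' = m * ((g * m)⁻¹ * g') := by group
    rw [this]; exact M.mul_mem hm h'
  | succ L ih =>
    rintro g g' ⟨Z, k, hZ, hk, hk1, h⟩
    refine ⟨Z, k, ?_, hk, hk1, ih _ _ ?_⟩
    · have := hinv m hm _ hZ
      rwa [mul_inv_rev, mul_smul, smul_inv_smul] at this
    · rwa [mul_assoc]

theorem Ch.exists (hR : Rot G C H θ T) (hW : Wind C H θ T W M S) {u : G}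
    (hu : u ∈ MM H M (OO C θ W S)) :
    ∀ (g g' : G) (L : ℕ), Ch H M (OO C θ W S) L (g * u) g' →
      ∃ L', Ch H M (OO C θ W S) L' g g' := by
  have hinv : ∀ m ∈ M, ∀ i ∈ OO C θ W S, m • i ∈ OO C θ W S := fun m hm i hi => OO_inv hW hm hi
  refine Subgroup.closure_induction_left (p := fun u _ => ∀ (g g' : G) (L : ℕ),
      Ch H M (OO C θ W S) L (g * u) g' → ∃ L', Ch H M (OO C θ W S) L' g g') ?_ ?_ ?_ hu
  · intro g g' L h
    rw [mul_one] at h
    exact ⟨L, h⟩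
  · rintro x hx y - ih g g' L h
    have h1 : Ch H M (OO C θ W S) L (g * x * y) g' := by rwa [mul_assoc]
    obtain ⟨L', h2⟩ := ih (g * x) g' L h1
    rcases hx with hx | hx
    · exact ⟨L', Ch.right_M hinv hx _ _ _ h2⟩
    · simp only [Set.mem_iUnion] at hx
      obtain ⟨i, hi, hx⟩ := hx
      by_cases hx1 : x = 1
      · subst hx1; rw [mul_one] at h2; exact ⟨L', h2⟩
      · refine ⟨L' + 1, g • i, g * x * g⁻¹, ?_, hR.conj g i x hx, ?_, ?_⟩
        · rwa [inv_smul_smul]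
        · intro h0
          apply hx1
          have : x = g⁻¹ * (g * x * g⁻¹) * g := by group
          rw [this, h0]; group
        · have e : g * x * g⁻¹ * g = g * x := by group
          rw [e]; exact h2
  · rintro x hx y - ih g g' L h
    have h1 : Ch H M (OO C θ W S) L (g * x⁻¹ * y) g' := by rwa [mul_assoc]
    obtain ⟨L', h2⟩ := ih (g * x⁻¹) g' L h1
    rcases hx with hx | hx
    · exact ⟨L', Ch.right_M hinv (M.inv_mem hx) _ _ _ h2⟩
    · simp only [Set.mem_iUnion] at hx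
      obtain ⟨i, hi, hx⟩ := hx
      by_cases hx1 : x⁻¹ = 1
      · rw [hx1, mul_one] at h2; exact ⟨L', h2⟩
      · refine ⟨L' + 1, g • i, g * x⁻¹ * g⁻¹, ?_, hR.conj g i _ ((H i).inv_mem hx), ?_, ?_⟩
        · rwa [inv_smul_smul]
        · intro h0
          apply hx1
          have : x⁻¹ = g⁻¹ * (g * x⁻¹ * g⁻¹) * g := by group
          rw [this, h0]; group
        · have e : g * x⁻¹ * g⁻¹ * g = g * x⁻¹ := by group
          rw [e]; exact h2

/-- minimal chains -/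
def MinCh (H : ι → Subgroup G) (M : Subgroup G) (O : Set ι) (L : ℕ) (g g' : G) : Prop :=
  Ch H M O L g g' ∧ ∀ L' < L, ¬ Ch H M O L' g g'

theorem exists_minCh (hR : Rot G C H θ T) (hW : Wind C H θ T W M S) {g g' : G}
    (hg : g ∈ MM H M (OO C θ W S)) (hg' : g' ∈ MM H M (OO C θ W S)) :
    ∃ L, MinCh H M (OO C θ W S) L g g' := by
  classical
  have h1 : ∃ L, Ch H M (OO C θ W S) L g g' := by
    refine Ch.exists hR hW (u := g⁻¹ * g') (mul_mem (inv_mem hg) hg') g g' 0 ?_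
    change (g * (g⁻¹ * g'))⁻¹ * g' ∈ M
    have : (g * (g⁻¹ * g'))⁻¹ * g' = 1 := by group
    rw [this]; exact one_mem _
  exact ⟨Nat.find h1, Nat.find_spec h1, fun L' hL' => Nat.find_min h1 hL'⟩

/-- first step of a minimal chain of length `L + 1` -/
structure FS (H : ι → Subgroup G) (M : Subgroup G) (O : Set ι) (L : ℕ) (g g' : G) (Z : ι)
    (k : G) : Prop where
  adj : g⁻¹ • Z ∈ O
  hk : k ∈ H Z
  k1 : k ≠ 1
  nx : MinCh H M O L (k * g) g'
  mn : ∀ L' < L + 1, ¬ Ch H M O L' g g'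

theorem exists_FS {O : Set ι} {L : ℕ} {g g' : G} (h : MinCh H M O (L + 1) g g') :
    ∃ Z k, FS H M O L g g' Z k := by
  obtain ⟨⟨Z, k, h1, h2, h3, h4⟩, h5⟩ := h
  refine ⟨Z, k, h1, h2, h3, ⟨h4, fun L' hL' h6 => ?_⟩, h5⟩
  exact h5 (L' + 1) (by omega) ⟨Z, k, h1, h2, h3, h6⟩

theorem FS.adj' (hR : Rot G C H θ T) {O : Set ι} {L : ℕ} {g g' : G} {Z : ι} {k : G}
    (h : FS H M O L g g' Z k) : (k * g)⁻¹ • Z ∈ O := by
  rw [mul_inv_rev, mul_smul]
  have : k⁻¹ • Z = Z := hR.fix Z _ ((H Z).inv_mem h.hk)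
  rw [this]; exact h.adj

theorem FS.next {O : Set ι} {L : ℕ} {g g' : G} {Z : ι} {k : G}
    (h : FS H M O (L + 1) g g' Z k) : ∃ Z2 k2, FS H M O L (k * g) g' Z2 k2 ∧ Z2 ≠ Z := by
  obtain ⟨Z2, k2, h2⟩ := exists_FS h.nx
  refine ⟨Z2, k2, h2, ?_⟩
  rintro rfl
  by_cases h1 : k2 * k = 1
  · apply h.mn L (by omega)
    have := h2.nx.1
    rwa [← mul_assoc, h1, one_mul] at this
  · apply h.mn (L + 1) (by omega)
    refine ⟨Z2, k2 * k, h.adj, (H Z2).mul_mem h2.hk h.hk, h1, ?_⟩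
    have := h2.nx.1
    rwa [← mul_assoc] at this


/-- Behrstock step -/
theorem bb (hR : Rot G C H θ T) (hW : Wind C H θ T W M S) {g : G} {Z Z2 : ι} (hne : Z2 ≠ Z)
    (hZ : g⁻¹ • Z ∈ OO C θ W S) (hZ2 : g⁻¹ • Z2 ∈ OO C θ W S) {b w0 : V} (hw0 : g⁻¹ • w0 ∈ W)
    (hl : 652 * θ < prd (C.Y Z2) b w0) {w : V} (hw : g⁻¹ • w ∈ W) :
    prd (C.Y Z) b w ≤ 678 * θ := by
  obtain ⟨y, hy⟩ := C.hY Z
  obtain ⟨y2, hy2⟩ := C.hY Z2
  have e1 := f1 hR hW hne hZ2 hZ hy hw0
  have t1 := hR.fam.prd_tri Z2 b y w0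
  have e2 : prd (C.Y Z) b y2 ≤ 35 * θ := hR.fam.behr hne hy (by omega) hy2
  have e3 := f1 hR hW hne.symm hZ hZ2 hy2 hw
  have t2 := hR.fam.prd_tri Z b y2 w
  omega

theorem MM_mul (hR : Rot G C H θ T) {O : Set ι} {g g' : G} {L : ℕ} {Z : ι} {k : G}
    (hg : g ∈ MM H M O) (h : FS H M O L g g' Z k) : k * g ∈ MM H M O :=
  mul_mem (H_le hR hg h.adj h.hk) hg

/-- right propagation -/
theorem propR (hR : Rot G C H θ T) (hT : 10000 * θ ≤ T) (hW : Wind C H θ T W M S) {g' : G}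
    (hg' : g' ∈ MM H M (OO C θ W S)) {b : V} (hb : Near W (MM H M (OO C θ W S)) b g') :
    ∀ (L : ℕ) (g : G) (Z : ι) (k : G), g ∈ MM H M (OO C θ W S) →
      FS H M (OO C θ W S) L g g' Z k →
      (∀ w, g⁻¹ • w ∈ W → T ≤ 2 * (prd (C.Y Z) b w + 600 * θ) + 16 * θ) ∧
      (1 ≤ L → ∀ w, (k * g)⁻¹ • w ∈ W → prd (C.Y Z) b w ≤ 678 * θ) := by
  have h1θ := hR.fam.one_le
  intro L
  induction L with
  | zero =>
    intro g Z k hg h
    refine ⟨?_, fun h0 => absurd h0 (by omega)⟩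
    intro w hw
    have hm : (k * g)⁻¹ * g' ∈ M := h.nx.1
    set m := (k * g)⁻¹ * g' with hmdef
    have e : g' = k * g * m := by rw [hmdef]; group
    have hZ' : g'⁻¹ • Z ∈ OO C θ W S := by
      have := OO_inv hW (M.inv_mem hm) (h.adj' hR)
      rw [← mul_smul] at this
      rw [e, mul_inv_rev]; exact this
    have hw' : g'⁻¹ • (k • w) ∈ W := by
      have := hW.mW _ (M.inv_mem hm) _ hw
      rw [e]
      have e2 : (k * g * m)⁻¹ • k • w = m⁻¹ • g⁻¹ • w := by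
        rw [← mul_smul, ← mul_smul]; congr 1; group
      rw [e2]; exact this
    have := f3 hR hW hg' hb hZ' ((H Z).inv_mem h.hk) (inv_ne_one.2 h.k1) hw'
    rwa [inv_smul_smul] at this
  | succ L ih =>
    intro g Z k hg h
    obtain ⟨Z2, k2, h2, hne⟩ := h.next
    have hkg := MM_mul hR hg h
    obtain ⟨ih1, -⟩ := ih (k * g) Z2 k2 hkg h2
    obtain ⟨w00, hw00⟩ := hW.ne
    have hw0 : (k * g)⁻¹ • ((k * g) • w00) ∈ W := by rwa [inv_smul_smul]
    have hl := ih1 _ hw0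
    have key : ∀ w, (k * g)⁻¹ • w ∈ W → prd (C.Y Z) b w ≤ 678 * θ := by
      intro w hw
      exact bb hR hW hne (h.adj' hR) h2.adj hw0 (by omega) hw
    refine ⟨?_, fun _ => key⟩
    intro w hw
    have e1 := big_prd hR h.hk h.k1 w
    have e2 := key (k • w) (by rwa [mul_inv_rev, mul_smul, inv_smul_smul])
    have t := hR.fam.prd_tri Z w b (k • w)
    rw [prd_symm w b] at t
    omega

/-- propagation for points close to a copy -/
theorem propR' (hR : Rot G C H θ T) (hT : 10000 * θ ≤ T) (hW : Wind C H θ T W M S) {g' : G}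
    {v w1 : V} (hw1 : g'⁻¹ • w1 ∈ W) (hd : d v w1 ≤ 1) :
    ∀ (L : ℕ) (g : G) (Z : ι) (k : G), g ∈ MM H M (OO C θ W S) →
      FS H M (OO C θ W S) L g g' Z k →
      ∀ w, (k * g)⁻¹ • w ∈ W → prd (C.Y Z) v w ≤ 678 * θ := by
  have h1θ := hR.fam.one_le
  intro L
  induction L with
  | zero =>
    intro g Z k hg h w hw
    have hm : (k * g)⁻¹ * g' ∈ M := h.nx.1
    set m := (k * g)⁻¹ * g' with hmdef
    have e : g' = k * g * m := by rw [hmdef]; group
    have hw1' : (k * g)⁻¹ • w1 ∈ W := by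
      have := hW.mW _ hm _ hw1
      rw [e] at this
      have e2 : m • (k * g * m)⁻¹ • w1 = (k * g)⁻¹ • w1 := by
        rw [← mul_smul]; congr 1; group
      rwa [e2] at this
    have e1 := hR.fam.prd_lip Z v w1
    have e2 := pr_copy hW (h.adj' hR).1 hw1' hw
    have t := hR.fam.prd_tri Z v w1 w
    omega
  | succ L ih =>
    intro g Z k hg h
    obtain ⟨Z2, k2, h2, hne⟩ := h.next
    have hkg := MM_mul hR hg h
    have ih1 := ih (k * g) Z2 k2 hkg h2
    obtain ⟨w00, hw00⟩ := hW.ne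
    set w0 := (k * g) • w00 with hw0d
    have hw0 : (k * g)⁻¹ • w0 ∈ W := by rwa [hw0d, inv_smul_smul]
    have e1 := big_prd hR h2.hk h2.k1 w0
    have e2 := ih1 (k2 • w0) (by rwa [mul_inv_rev k2, mul_smul, inv_smul_smul])
    have t := hR.fam.prd_tri Z2 w0 v (k2 • w0)
    rw [prd_symm w0 v] at t
    intro w hw
    exact bb hR hW hne (h.adj' hR) h2.adj hw0 (by omega) hw

/-! ### reducibility -/

theorem Red.conj' {S' : Set ι} {τ : ℕ} (hR : Rot G C H θ T) (g : G) (hS : ∀ i ∈ S, g • i ∈ S')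
    {x : V} {m : G} (h : Red C.Y H S τ x m) : Red C.Y H S' τ (g • x) (g * m * g⁻¹) := by
  induction h with
  | one =>
    have : g * 1 * g⁻¹ = 1 := by group
    rw [this]; exact Red.one
  | step n h i hi hh hp _ ih =>
    refine Red.step _ (g * h * g⁻¹) (g • i) (hS i hi) (hR.conj g i h hh) ?_ ?_
    · have e : (g * n * g⁻¹) • g • x = g • n • x := by
        rw [← mul_smul, ← mul_smul]; congr 1; group
      rw [e, prd_smulC]; exact hp
    · have e : g * h * g⁻¹ * (g * n * g⁻¹) = g * (h * n) * g⁻¹ := by group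
      rw [e]; exact ih

theorem stab (hR : Rot G C H θ T) (hT : 10000 * θ ≤ T) (hW : Wind C H θ T W M S) {m : G}
    (hm : m ∈ M) (hm1 : m ≠ 1) {Z : ι} (hZ : Z ∉ S) : m • Z ≠ Z := by
  intro h0
  have h1θ := hR.fam.one_le
  obtain ⟨y, hy⟩ := C.hY Z
  have hmy : m • y ∈ C.Y Z := by
    have := ConeAct.mem (C := C) m Z y hy
    rwa [h0] at this
  have h := hW.red m hm y
  cases h with
  | one => exact hm1 rfl
  | step _ h i hi hh hp _ =>
    have hne : i ≠ Z := fun h => hZ (h ▸ hi)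
    have := hR.fam.small i Z hne y hy _ hmy
    omega

/-- the new set of centers -/
def SS (H : ι → Subgroup G) (M : Subgroup G) (O S : Set ι) : Set ι :=
  {i | ∃ g ∈ MM H M O, g⁻¹ • i ∈ S ∨ g⁻¹ • i ∈ O}

theorem red_new (hR : Rot G C H θ T) (hT : 10000 * θ ≤ T) (hW : Wind C H θ T W M S) {g : G}
    (hg : g ∈ MM H M (OO C θ W S)) {x : V} (hx : Near W (MM H M (OO C θ W S)) x g) :
    ∀ (L : ℕ) (n : G), n ∈ MM H M (OO C θ W S) → MinCh H M (OO C θ W S) L g (n * g) →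
      Red C.Y H (SS H M (OO C θ W S) S) (T / 4) x n := by
  have h1θ := hR.fam.one_le
  intro L
  induction L using Nat.strong_induction_on with
  | _ L ih =>
  intro n hn hL
  rcases L with _ | L
  · have hm : g⁻¹ * (n * g) ∈ M := hL.1
    have h1 := hW.red _ hm (g⁻¹ • x)
    have h2 := Red.conj' (S' := SS H M (OO C θ W S) S) hR g (fun i hi => ⟨g, hg, Or.inl (by
      rwa [inv_smul_smul])⟩) h1
    have e : g * (g⁻¹ * (n * g)) * g⁻¹ = n := by group
    rw [e, smul_inv_smul] at h2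
    exact h2
  · obtain ⟨Z, k, h⟩ := exists_FS hL
    have hkM := H_le (M := M) hR hg h.adj h.hk
    have hng : n * g ∈ MM H M (OO C θ W S) := mul_mem hn hg
    have hnx := hx.smul hn
    obtain ⟨w00, hw00⟩ := hW.ne
    set w0 := g • w00 with hw0d
    have hw0 : g⁻¹ • w0 ∈ W := by rwa [hw0d, inv_smul_smul]
    -- `x` seen from `Z`
    have ex := f3 hR hW hg hx h.adj h.hk h.k1 hw0
    have claim : T / 4 ≤ prd (C.Y Z) x (n • x) := by
      rcases Nat.eq_zero_or_pos L with hL0 | hLpos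
      · subst hL0
        have hm : (k * g)⁻¹ * (n * g) ∈ M := h.nx.1
        set m := (k * g)⁻¹ * (n * g) with hmdef
        have e : n * g = k * g * m := by rw [hmdef]; group
        by_cases hm1 : m = 1
        · have hnk : n = k := by
            rw [hm1, mul_one] at e
            exact mul_right_cancel e
          rw [hnk]
          have := big_prd hR h.hk h.k1 x
          omega
        · -- `Z'' = g m⁻¹ g⁻¹ Z`
          have hZS : (g⁻¹ • Z) ∉ S := h.adj.1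
          have hst := stab hR hT hW (M.inv_mem hm) (inv_ne_one.2 hm1) hZS
          set Z2 : ι := g • m⁻¹ • g⁻¹ • Z with hZ2
          have hZ2a : g⁻¹ • Z2 ∈ OO C θ W S := by
            rw [hZ2, inv_smul_smul]
            exact OO_inv hW (M.inv_mem hm) h.adj
          have hne : Z2 ≠ Z := by
            intro h0
            apply hst
            have e9 : g⁻¹ • Z2 = m⁻¹ • g⁻¹ • Z := by rw [hZ2, inv_smul_smul]
            rw [← e9, h0]
          have hnZ2 : n • Z2 = Z := by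
            rw [hZ2, ← mul_smul, ← mul_smul, ← mul_smul, e]
            have e2 : k * g * m * m⁻¹ * g⁻¹ = k := by group
            rw [e2]
            exact hR.fix Z k h.hk
          obtain ⟨y, hy⟩ := C.hY Z
          obtain ⟨y2, hy2⟩ := C.hY Z2
          -- copies
          have hkw0 : (k * g)⁻¹ • (k • w0) ∈ W := by
            rwa [mul_inv_rev, mul_smul, inv_smul_smul]
          by_cases hA : prd (C.Y Z) x y2 ≤ 9 * θ
          · have e3 := f1 hR hW hne.symm h.adj hZ2a hy2 hw0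
            have t1 := hR.fam.prd_tri Z x y2 w0
            have hP := (propR hR hT hW hng hnx 0 g Z k hg h).1 w0 hw0
            have t2 := hR.fam.prd_tri Z (n • x) x w0
            rw [prd_symm (n • x) x] at t2
            omega
          · push Not at hA
            have e3 : prd (C.Y Z2) x y ≤ 35 * θ := hR.fam.behr hne.symm hy2 hA hy
            -- a point of the copy `g W` mapped to `k w0` by `n`
            set w2 := n⁻¹ • k • w0 with hw2
            have hw2g : g⁻¹ • w2 ∈ W := by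
              have e4 : g⁻¹ • w2 = m⁻¹ • g⁻¹ • w0 := by
                have e5 : n⁻¹ * k = g * m⁻¹ * g⁻¹ := by
                  have : n = k * g * m * g⁻¹ := by rw [← e]; group
                  rw [this]; group
                have e6 : w2 = (g * m⁻¹ * g⁻¹) • w0 := by rw [hw2, ← e5, mul_smul]
                have e7 : g⁻¹ * (g * m⁻¹ * g⁻¹) = m⁻¹ * g⁻¹ := by group
                rw [e6, ← mul_smul, e7, mul_smul]
              rw [e4]
              exact hW.mW _ (M.inv_mem hm) _ hw0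
            have e4 := f1 hR hW hne hZ2a h.adj hy hw2g
            have t1 := hR.fam.prd_tri Z2 x y w2
            have e5 : prd (C.Y Z) (n • x) (k • w0) = prd (C.Y Z2) x w2 := by
              have := prd_smulC C n Z2 x w2
              rw [hnZ2, hw2, smul_inv_smul] at this
              exact this
            have t2 := hR.fam.prd_tri Z x (n • x) (k • w0)
            omega
      · have e1 := (propR hR hT hW hng hnx L g Z k hg h).2 hLpos (k • w0) (by
          rwa [mul_inv_rev, mul_smul, inv_smul_smul])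
        have t := hR.fam.prd_tri Z x (n • x) (k • w0)
        omega
    refine Red.step n k⁻¹ Z ⟨g, hg, Or.inr h.adj⟩ ((H Z).inv_mem h.hk) claim ?_
    have hn' : k⁻¹ * n ∈ MM H M (OO C θ W S) := mul_mem (inv_mem hkM) hn
    obtain ⟨L', hL'⟩ := exists_minCh hR hW hg (mul_mem hn' hg)
    have hch : Ch H M (OO C θ W S) L g (k⁻¹ * n * g) := by
      have := Ch.left hR k⁻¹ _ _ _ h.nx.1
      rwa [inv_mul_cancel_left, ← mul_assoc] at this
    have hle : L' ≤ L := by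
      by_contra hcon
      exact hL'.2 L (by omega) hch
    exact ih L' (by omega) _ hn' hL'

/-! ### small projections -/

theorem a1 (hR : Rot G C H θ T) (hW : Wind C H θ T W M S) {i : ι}
    (hi : i ∉ SS H M (OO C θ W S) S) {g : G} (hg : g ∈ MM H M (OO C θ W S)) {w w' : V}
    (hw : g⁻¹ • w ∈ W) (hw' : g⁻¹ • w' ∈ W) : prd (C.Y i) w w' ≤ 8 * θ := by
  by_contra hcon
  push Not at hcon
  obtain ⟨a, b, ha, hb, hab⟩ := exists_prd (C.hY i) w w'
  rw [← hab] at hcon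
  obtain ⟨z, hz, hza⟩ := ha.p5 hR.fam.hyp hR.fam.one_le (hR.fam.qc i) hb hcon
  have hz' : Bt (g⁻¹ • w) (g⁻¹ • z) (g⁻¹ • w') := by
    unfold Bt at hz ⊢
    rw [IsomAct.isom, IsomAct.isom, IsomAct.isom]; exact hz
  obtain ⟨w2, hw2, hd2⟩ := hW.qc _ hw _ hw' _ hz'
  apply hi
  refine ⟨g, hg, Or.inr ⟨?_, g⁻¹ • a, ConeAct.mem g⁻¹ i a ha.1, w2, hw2, ?_⟩⟩
  · intro h0
    exact hi ⟨g, hg, Or.inl h0⟩
  · have t := tri (g⁻¹ • a) (g⁻¹ • z) w2
    rw [IsomAct.isom, GMet.symm a z] at t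
    omega

theorem a2 (hR : Rot G C H θ T) (hW : Wind C H θ T W M S) {i : ι}
    (hi : i ∉ SS H M (OO C θ W S) S) {g : G} (hg : g ∈ MM H M (OO C θ W S)) {Z : ι}
    (hZ : g⁻¹ • Z ∈ OO C θ W S) {w y : V} (hw : g⁻¹ • w ∈ W) (hy : y ∈ C.Y Z) :
    prd (C.Y i) w y ≤ 51 * θ := by
  have hne : i ≠ Z := by
    rintro rfl
    exact hi ⟨g, hg, Or.inr hZ⟩
  obtain ⟨h1, y0, hy0, w0, hw0, hd⟩ := hZ
  have hy1 : g • y0 ∈ C.Y Z := by
    have := ConeAct.mem (C := C) g _ _ hy0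
    rwa [smul_inv_smul] at this
  have e1 := a1 hR hW hi hg hw (w' := g • w0) (by rwa [inv_smul_smul])
  have e2 := hR.fam.prd_lip i (g • w0) (g • y0)
  rw [IsomAct.isom, GMet.symm w0 y0] at e2
  have e3 := hR.fam.small i Z hne _ hy1 _ hy
  have t1 := hR.fam.prd_tri i w (g • w0) y
  have t2 := hR.fam.prd_tri i (g • w0) (g • y0) y
  omega

theorem walk (hR : Rot G C H θ T) (hT : 10000 * θ ≤ T) (hW : Wind C H θ T W M S) {i : ι}
    (hi : i ∉ SS H M (OO C θ W S) S) {g' : G} {u v w1 : V} (hw1 : g'⁻¹ • w1 ∈ W)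
    (hd : d v w1 ≤ 1) :
    ∀ (L : ℕ) (g : G) (Z : ι) (k : G), g ∈ MM H M (OO C θ W S) →
      FS H M (OO C θ W S) L g g' Z k → (∀ w, g⁻¹ • w ∈ W → prd (C.Y i) u w ≤ 86 * θ) →
      (∀ w, g⁻¹ • w ∈ W → prd (C.Y Z) u w ≤ 678 * θ) → prd (C.Y i) u v ≤ 172 * θ := by
  have h1θ := hR.fam.one_le
  intro L
  induction L with
  | zero =>
    intro g Z k hg h hu huZ
    obtain ⟨w00, hw00⟩ := hW.ne
    set w0 := g • w00 with hw0d
    have hw0 : g⁻¹ • w0 ∈ W := by rwa [hw0d, inv_smul_smul]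
    have hkw0 : (k * g)⁻¹ • (k • w0) ∈ W := by rwa [mul_inv_rev, mul_smul, inv_smul_smul]
    have hZi : Z ≠ i := by
      rintro rfl
      exact hi ⟨g, hg, Or.inr h.adj⟩
    obtain ⟨y, hy⟩ := C.hY i
    obtain ⟨y2, hy2⟩ := C.hY Z
    have e1 := huZ w0 hw0
    have e2 := propR' hR hT hW hw1 hd 0 g Z k hg h (k • w0) hkw0
    have e3 := big_prd hR h.hk h.k1 w0
    have t1 := hR.fam.prd_tri Z w0 u (k • w0)
    have t2 := hR.fam.prd_tri Z u y (k • w0)
    have t3 := hR.fam.prd_tri Z y v (k • w0)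
    rw [prd_symm w0 u] at t1
    rw [prd_symm y v] at t3
    by_cases hc : 9 * θ < prd (C.Y Z) v y
    · have e4 : prd (C.Y i) v y2 ≤ 35 * θ := hR.fam.behr hZi hy hc hy2
      have e5 := a2 hR hW hi hg h.adj hw0 hy2
      have e6 := hu w0 hw0
      have t4 := hR.fam.prd_tri i u w0 v
      have t5 := hR.fam.prd_tri i w0 y2 v
      rw [prd_symm y2 v] at t5
      omega
    · have e4 : prd (C.Y i) u y2 ≤ 35 * θ := hR.fam.behr hZi hy (by omega) hy2
      have hm : (k * g)⁻¹ * g' ∈ M := h.nx.1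
      set m := (k * g)⁻¹ * g' with hmdef
      have e : g' = k * g * m := by rw [hmdef]; group
      have hw1' : (k * g)⁻¹ • w1 ∈ W := by
        have := hW.mW _ hm _ hw1
        rw [e] at this
        have e2 : m • (k * g * m)⁻¹ • w1 = (k * g)⁻¹ • w1 := by
          rw [← mul_smul]; congr 1; group
        rwa [e2] at this
      have e5 := a2 hR hW hi (MM_mul hR hg h) (h.adj' hR) hw1' hy2
      have e6 := hR.fam.prd_lip i v w1
      have t4 := hR.fam.prd_tri i u y2 v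
      have t5 := hR.fam.prd_tri i y2 w1 v
      rw [prd_symm w1 y2] at e5
      rw [prd_symm w1 v] at t5
      omega
  | succ L ih =>
    intro g Z k hg h hu huZ
    obtain ⟨w00, hw00⟩ := hW.ne
    set w0 := g • w00 with hw0d
    have hw0 : g⁻¹ • w0 ∈ W := by rwa [hw0d, inv_smul_smul]
    have hkw0 : (k * g)⁻¹ • (k • w0) ∈ W := by rwa [mul_inv_rev, mul_smul, inv_smul_smul]
    have hZi : Z ≠ i := by
      rintro rfl
      exact hi ⟨g, hg, Or.inr h.adj⟩
    obtain ⟨y, hy⟩ := C.hY i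
    obtain ⟨y2, hy2⟩ := C.hY Z
    have e1 := huZ w0 hw0
    have e2 := propR' hR hT hW hw1 hd (L + 1) g Z k hg h (k • w0) hkw0
    have e3 := big_prd hR h.hk h.k1 w0
    have t1 := hR.fam.prd_tri Z w0 u (k • w0)
    have t2 := hR.fam.prd_tri Z u y (k • w0)
    have t3 := hR.fam.prd_tri Z y v (k • w0)
    rw [prd_symm w0 u] at t1
    rw [prd_symm y v] at t3
    by_cases hc : 9 * θ < prd (C.Y Z) v y
    · have e4 : prd (C.Y i) v y2 ≤ 35 * θ := hR.fam.behr hZi hy hc hy2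
      have e5 := a2 hR hW hi hg h.adj hw0 hy2
      have e6 := hu w0 hw0
      have t4 := hR.fam.prd_tri i u w0 v
      have t5 := hR.fam.prd_tri i w0 y2 v
      rw [prd_symm y2 v] at t5
      omega
    · have e4 : prd (C.Y i) u y2 ≤ 35 * θ := hR.fam.behr hZi hy (by omega) hy2
      have hkg := MM_mul hR hg h
      obtain ⟨Z2, k2, h2, hne⟩ := h.next
      refine ih (k * g) Z2 k2 hkg h2 ?_ ?_
      · intro w hw
        have e5 := a2 hR hW hi hkg (h.adj' hR) hw hy2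
        have t4 := hR.fam.prd_tri i u y2 w
        rw [prd_symm w y2] at e5
        omega
      · intro w hw
        exact bb hR hW hne.symm h2.adj (h.adj' hR) hkw0 (by omega) hw

theorem w4 (hR : Rot G C H θ T) (hT : 10000 * θ ≤ T) (hW : Wind C H θ T W M S) {i : ι}
    (hi : i ∉ SS H M (OO C θ W S) S) {g g' : G} (hg : g ∈ MM H M (OO C θ W S))
    (hg' : g' ∈ MM H M (OO C θ W S)) {u v w2 w1 : V} (hw2 : g⁻¹ • w2 ∈ W) (hd2 : d u w2 ≤ 1)
    (hw1 : g'⁻¹ • w1 ∈ W) (hd : d v w1 ≤ 1) : prd (C.Y i) u v ≤ 172 * θ := by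
  have h1θ := hR.fam.one_le
  obtain ⟨L, hL⟩ := exists_minCh hR hW hg hg'
  rcases L with _ | L
  · have hm : g⁻¹ * g' ∈ M := hL.1
    have hw1' : g⁻¹ • w1 ∈ W := by
      have := hW.mW _ hm _ hw1
      have e2 : (g⁻¹ * g') • g'⁻¹ • w1 = g⁻¹ • w1 := by
        rw [← mul_smul]; congr 1; group
      rwa [e2] at this
    have e1 := a1 hR hW hi hg hw2 hw1'
    have e2 := hR.fam.prd_lip i u w2
    have e3 := hR.fam.prd_lip i v w1
    have t1 := hR.fam.prd_tri i u w2 v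
    have t2 := hR.fam.prd_tri i w2 w1 v
    rw [prd_symm w1 v] at t2
    omega
  · obtain ⟨Z, k, h⟩ := exists_FS hL
    refine walk hR hT hW hi hw1 hd L g Z k hg h ?_ ?_
    · intro w hw
      have e1 := a1 hR hW hi hg hw2 hw
      have e2 := hR.fam.prd_lip i u w2
      have t1 := hR.fam.prd_tri i u w2 w
      omega
    · intro w hw
      have e1 := pr_copy hW h.adj.1 hw2 hw
      have e2 := hR.fam.prd_lip Z u w2
      have t1 := hR.fam.prd_tri Z u w2 w
      omega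


/-! ### the new windmill -/

/-- neighbourhood of the copies -/
def AA (H : ι → Subgroup G) (M : Subgroup G) (O : Set ι) (W : Set V) : Set V :=
  {v | ∃ g ∈ MM H M O, ∃ w, g⁻¹ • w ∈ W ∧ d v w ≤ 1}

/-- the new windmill -/
def WW (H : ι → Subgroup G) (M : Subgroup G) (O : Set ι) (W : Set V) : Set V :=
  {z | ∃ a ∈ AA H M O W, ∃ b ∈ AA H M O W, Bt a z b}

theorem Bt.smul' {x z y : V} (g : G) (h : Bt x z y) : Bt (g • x) (g • z) (g • y) := by
  unfold Bt at *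
  rw [IsomAct.isom, IsomAct.isom, IsomAct.isom]; exact h

theorem AA_sub {O : Set ι} {v w : V} (hw : w ∈ W) (hd : d v w ≤ 1) : v ∈ AA H M O W :=
  ⟨1, one_mem _, w, by simpa using hw, hd⟩

theorem WW_sub {O : Set ι} {v w : V} (hw : w ∈ W) (hd : d v w ≤ 1) : v ∈ WW H M O W :=
  ⟨v, AA_sub hw hd, v, AA_sub hw hd, Bt.left _ _⟩

theorem hull_pr (hR : Rot G C H θ T) (i : ι) {A : Set V} {κ : ℕ}
    (hA : ∀ a ∈ A, ∀ b ∈ A, prd (C.Y i) a b ≤ κ) {a b z : V} (ha : a ∈ A) (hb : b ∈ A)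
    (hz : Bt a z b) : prd (C.Y i) a z ≤ κ + 32 * θ := by
  have hY := C.hY i
  obtain ⟨b', hb'⟩ := exists_pr hY b
  apply prd_le
  intro a' c ha' hc
  have e1 := (le_prd ha' hb').trans (hA a ha b hb)
  by_cases h1 : 8 * θ < d a' c
  · by_cases h2 : 8 * θ < d c b'
    · have := (ha'.p6 hR.fam.hyp hR.fam.one_le (hR.fam.qc i) hz hb' hc (Or.inr h1)
        (Or.inr h2)).2
      omega
    · have t := tri a' b' c
      have s := GMet.symm b' c
      omega
  · omega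

theorem hull_pr2 (hR : Rot G C H θ T) (i : ι) {A : Set V} {κ : ℕ}
    (hA : ∀ a ∈ A, ∀ b ∈ A, prd (C.Y i) a b ≤ κ) {a b z a' b' z' : V} (ha : a ∈ A) (hb : b ∈ A)
    (hz : Bt a z b) (ha' : a' ∈ A) (hb' : b' ∈ A) (hz' : Bt a' z' b') :
    prd (C.Y i) z z' ≤ 3 * κ + 64 * θ := by
  have e1 := hull_pr hR i hA ha hb hz
  have e2 := hull_pr hR i hA ha' hb' hz'
  have e3 := hA a ha a' ha'
  have t1 := hR.fam.prd_tri i z a z'
  have t2 := hR.fam.prd_tri i a a' z'
  rw [prd_symm z a] at t1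
  omega

theorem hull_qc (hV : Hyp V θ) (A : Set V) : QC (8 * θ) {z | ∃ a ∈ A, ∃ b ∈ A, Bt a z b} := by
  rintro x ⟨a, ha, b, hb, hx⟩ y ⟨a', ha', b', hb', hy⟩ z hz
  obtain ⟨u, hu, hzu⟩ := hV.slim x y a' z hz
  rcases hu with hu | hu
  · -- `u ∈ [x, a']`
    obtain ⟨u2, hu2, huu⟩ := hV.slim x a' a u hu
    have t := tri z u u2
    rcases hu2 with hu2 | hu2
    · refine ⟨u2, ⟨a, ha, b, hb, ?_⟩, by omega⟩
      -- `u2 ∈ [x, a] ⊂ [b, a]`
      have h1 : Bt a u2 x := hu2.symm'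
      exact (hx.trans_left h1).1
    · exact ⟨u2, ⟨a, ha, a', ha', hu2⟩, by omega⟩
  · refine ⟨u, ⟨a', ha', b', hb', ?_⟩, by omega⟩
    exact (hy.trans_left hu).1

theorem Wind.next (hR : Rot G C H θ T) (hT : 10000 * θ ≤ T) (hW : Wind C H θ T W M S) :
    Wind C H θ T (WW H M (OO C θ W S) W) (MM H M (OO C θ W S)) (SS H M (OO C θ W S) S) where
  ne := by
    obtain ⟨w, hw⟩ := hW.ne
    exact ⟨w, WW_sub hw (by rw [d_self]; omega)⟩
  mW := by
    rintro m hm z ⟨a, ⟨g, hg, w, hw, hd⟩, b, ⟨g', hg', w', hw', hd'⟩, hz⟩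
    refine ⟨m • a, ⟨m * g, mul_mem hm hg, m • w, ?_, ?_⟩, m • b,
      ⟨m * g', mul_mem hm hg', m • w', ?_, ?_⟩, Bt.smul' m hz⟩
    · rwa [mul_inv_rev, mul_smul, inv_smul_smul]
    · rwa [IsomAct.isom]
    · rwa [mul_inv_rev, mul_smul, inv_smul_smul]
    · rwa [IsomAct.isom]
  mS := by
    rintro m hm i ⟨g, hg, h⟩
    refine ⟨m * g, mul_mem hm hg, ?_⟩
    rwa [mul_inv_rev, mul_smul, inv_smul_smul]
  qc := hull_qc hR.fam.hyp _
  hM := by
    rintro i ⟨g, hg, h⟩ k hk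
    have h1 : g⁻¹ * k * g ∈ H (g⁻¹ • i) := by
      have := hR.conj g⁻¹ i k hk
      rwa [inv_inv] at this
    have h2 : g⁻¹ * k * g ∈ MM H M (OO C θ W S) := by
      rcases h with h | h
      · exact M_le_MM M _ (hW.hM _ h h1)
      · exact H_le_MM M h h1
    have h3 : k = g * (g⁻¹ * k * g) * g⁻¹ := by group
    rw [h3]
    exact mul_mem (mul_mem hg h2) (inv_mem hg)
  pr := by
    rintro i hi z ⟨a, ha, b, hb, hz⟩ z' ⟨a', ha', b', hb', hz'⟩
    have hA : ∀ a ∈ AA H M (OO C θ W S) W, ∀ b ∈ AA H M (OO C θ W S) W,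
        prd (C.Y i) a b ≤ 172 * θ := by
      rintro u ⟨g, hg, w2, hw2, hd2⟩ v ⟨g', hg', w1, hw1, hd1⟩
      exact w4 hR hT hW hi hg hg' hw2 hd2 hw1 hd1
    have := hull_pr2 hR i hA ha hb hz ha' hb' hz'
    omega
  red := by
    intro n hn x
    obtain ⟨g, hg, hx⟩ := exists_near (V := V) hW.ne (MM H M (OO C θ W S)) x
    obtain ⟨L, hL⟩ := exists_minCh hR hW hg (mul_mem hn hg)
    exact red_new hR hT hW hg hx L n hn hL

end step

theorem wind0 (hR : Rot G C H θ T) (x0 : V) : Wind C H θ T {x0} ⊥ ∅ where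
  ne := ⟨x0, rfl⟩
  mW := by
    intro m hm w hw
    rw [Subgroup.mem_bot] at hm
    subst hm
    rwa [one_smul]
  mS := by
    intro m _ i hi
    exact absurd hi (Set.notMem_empty i)
  qc := by
    rintro x hx y hy z hz
    rw [Set.mem_singleton_iff] at hx hy
    rw [hx, hy] at hz
    refine ⟨x0, rfl, ?_⟩
    unfold Bt at hz
    rw [d_self] at hz
    have s := GMet.symm z x0
    omega
  hM := by
    intro i hi
    exact absurd hi (Set.notMem_empty i)
  pr := by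
    rintro i - w hw w' hw'
    rw [Set.mem_singleton_iff] at hw hw'
    rw [hw, hw']
    have := hR.fam.prd_self i x0
    omega
  red := by
    intro m hm x
    rw [Subgroup.mem_bot] at hm
    subst hm
    exact Red.one

/-- the state of the recursion -/
structure St (C : ConeData V ι) (H : ι → Subgroup G) (θ T : ℕ) where
  W : Set V
  M : Subgroup G
  S : Set ι
  h : Wind C H θ T W M S

theorem exists_seq (hR : Rot G C H θ T) (hT : 10000 * θ ≤ T) (x0 : V) :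
    ∃ f : ℕ → St C H θ T, x0 ∈ (f 0).W ∧
      ∀ n, (f (n + 1)).W = WW H (f n).M (OO C θ (f n).W (f n).S) (f n).W ∧
        (f (n + 1)).M = MM H (f n).M (OO C θ (f n).W (f n).S) := by
  let nx : St C H θ T → St C H θ T := fun s => ⟨_, _, _, s.h.next hR hT⟩
  let f : ℕ → St C H θ T := fun n => Nat.rec ⟨_, _, _, wind0 hR x0⟩ (fun _ s => nx s) n
  exact ⟨f, rfl, fun n => ⟨rfl, rfl⟩⟩

end S2

theorem s2Stmt : S2Stmt := by
  refine ⟨10000, ?_⟩
  intro G V ι _ _ _ _ _ C _ H θ T hR hT n hn x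
  obtain ⟨f, hf0, hf⟩ := S2.exists_seq hR hT x
  have hMmono : ∀ n, (f n).M ≤ (f (n + 1)).M := by
    intro n
    rw [(hf n).2]
    exact S2.M_le_MM _ _
  have hMmono' : ∀ a b, a ≤ b → (f a).M ≤ (f b).M := fun a b hab =>
    monotone_nat_of_le_succ hMmono hab
  -- every point is in some `W`
  have hcov : ∀ (m : ℕ) (y : V), d x y = m → ∃ N, y ∈ (f N).W := by
    intro m
    induction m with
    | zero =>
      intro y hy
      rw [← eq_of_d x y hy]
      exact ⟨0, hf0⟩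
    | succ m ih =>
      intro y hy
      obtain ⟨z, h1, h2⟩ := geo x y m (by omega)
      obtain ⟨N, hN⟩ := ih z h1
      refine ⟨N + 1, ?_⟩
      rw [(hf N).1]
      exact S2.WW_sub hN (by rw [GMet.symm]; omega)
  -- every rotation group is in some `M`
  have hrot : ∀ i, ∃ N, H i ≤ (f N).M := by
    intro i
    obtain ⟨y, hy⟩ := C.hY i
    obtain ⟨N, hN⟩ := hcov _ y rfl
    by_cases hi : i ∈ (f N).S
    · exact ⟨N, (f N).h.hM i hi⟩
    · refine ⟨N + 1, ?_⟩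
      rw [(hf N).2]
      exact S2.H_le_MM _ ⟨hi, y, hy, y, hN, by rw [d_self]; omega⟩
  have hmem : ∃ N, n ∈ (f N).M := by
    unfold NN at hn
    induction hn using Subgroup.closure_induction with
    | mem g hg =>
      obtain ⟨i, hi⟩ := Set.mem_iUnion.1 hg
      obtain ⟨N, hN⟩ := hrot i
      exact ⟨N, hN hi⟩
    | one => exact ⟨0, one_mem _⟩
    | mul a b _ _ ha hb =>
      obtain ⟨N, hN⟩ := ha
      obtain ⟨N', hN'⟩ := hb
      exact ⟨max N N', mul_mem (hMmono' _ _ (le_max_left _ _) hN)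
        (hMmono' _ _ (le_max_right _ _) hN')⟩
    | inv a _ ha =>
      obtain ⟨N, hN⟩ := ha
      exact ⟨N, inv_mem hN⟩
  obtain ⟨N, hN⟩ := hmem
  have h1 := (f N).h.red n hN x
  -- enlarge the set of centers
  clear hN hn
  induction h1 with
  | one => exact Red.one
  | step n h i _ hh hp _ ih => exact Red.step n h i (Set.mem_univ _) hh hp ih

end FrobP
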